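import Pool.Agent.Helper10_Pak.Lib

/-!
# E4: the orientation of a lever
-/

set_option autoImplicit false

namespace Pool.Agent.Helper2_Pak.H10

open Pool.Agent.Helper2_Pack (Motion)

theorem pit_le {a b e M : ℝ} (hM : 0 ≤ M) (h : a + b * e ≤ M) : pit a b e ≤ M :=
  max_le hM ((min_le_left _ _).trans h)

theorem dent_le {t : ℝ} (ht : 0 < t) (e : ℝ) : dent t e ≤ 2 * t ^ 3 := by
  unfold dent
  apply max_le
  · positivity
  · have : 0 < t ^ 3 := by positivity
    nlinarith only [this, abs_nonneg e]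

theorem pows {t : ℝ} (ht : 0 < t) (ht1 : t ≤ 1 / 2 ^ 60) :
    0 < t ^ 3 ∧ t ^ 3 ≤ t / 1000 ∧ 0 < t ^ 4 ∧ t ^ 4 ≤ t ^ 3 / 1000 ∧ 0 < t ^ 7 ∧
      t ^ 7 ≤ t ^ 3 / 1000 ∧ t ≤ 1 / 1000000 ∧ 0 < t ^ 2 ∧ t ^ 2 ≤ t / 1000 := by
  have h1 : t ≤ 1 / 1000000 := ht1.trans (by norm_num)
  have h2 : t ^ 2 ≤ t / 1000 := by nlinarith
  have h2' : 0 < t ^ 2 := by positivity
  have h3 : t ^ 3 ≤ t / 1000 := by
    have : t ^ 3 = t ^ 2 * t := by ring
    nlinarith only [h2]
  have h3' : 0 < t ^ 3 := by positivity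
  have h4 : t ^ 4 ≤ t ^ 3 / 1000 := by
    have : t ^ 4 = t ^ 3 * t := by ring
    nlinarith
  have h5' : 0 < t ^ 4 := by positivity
  have h7' : 0 < t ^ 7 := by positivity
  have h7 : t ^ 7 ≤ t ^ 3 / 1000 := by
    have : t ^ 7 = t ^ 4 * t ^ 3 := by ring
    nlinarith only [h5', h2, h3]
  exact ⟨h3', h3, h5', h4, h7', h7, h1, h2', h2⟩

theorem pit_zero' {s b e : ℝ} (hs : 0 < s) (hb : b = s ∨ b = -s) (h : 1 / 64 ≤ |e|) :
    pit (s / 2) b e = 0 := by
  unfold pit
  apply max_eq_left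
  have h1 : 0 ≤ s / 2 + b / 128 ∧ 0 ≤ s / 2 - b / 128 := by
    rcases hb with rfl | rfl <;> constructor <;> linarith
  rcases le_abs.mp h with h | h
  · refine (min_le_right _ _).trans ((min_le_left _ _).trans ?_)
    exact mul_nonpos_of_nonneg_of_nonpos h1.1 (by linarith)
  · refine (min_le_right _ _).trans ((min_le_right _ _).trans ?_)
    exact mul_nonpos_of_nonneg_of_nonpos h1.2 (by linarith)

/-- the shape is solid near `(±1/16, ±1/4)` -/
theorem solid1 {t x y : ℝ} (ht : 0 < t) (ht1 : t ≤ 1 / 2 ^ 60) (hx : |x| ≤ 1 / 8)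
    (hy1 : 1 / 4 - 1 / 100 ≤ |y|) (hy2 : |y| ≤ 1 / 4 + 1 / 100) :
    lo t x < y ∧ y < hi t x ∧ lf t y < x ∧ x < rt t y := by
  obtain ⟨p3, q3, p4, q4, p7, q7, ht2, p2, q2⟩ := pows ht ht1
  have hx' := abs_le.mp hx
  have hy' := abs_le.mp hy2
  have hhh : hh t = 1 / 2 + t ^ 2 / 2 := by
    unfold hh
    ring
  have cx : chamf t (1 / 2) x = 0 := chamf_zero (by linarith only [ht1, hx])
  have cy : chamf t (hh t) y = 0 := chamf_zero (by rw [hhh]; linarith only [ht1, hy2, p2])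
  have bu1 := bump_nonneg t (x + 1 / 4)
  have bu2 := bump_nonneg t (x - 1 / 4)
  have de1 := dent_le ht (x + 1 / 4)
  have de2 := dent_le ht (x - 1 / 4)
  have hb1 : |-t ^ 4| ≤ t ^ 3 - t ^ 4 := by
    rw [abs_neg, abs_of_pos p4]
    linarith only [p4, q4]
  have hb2 : |-t ^ 3| ≤ t ^ 3 := by
    rw [abs_neg, abs_of_pos p3]
  have s1 : slit t (1 - t ^ 3 / 4) (y + 1 / 16) = 0 := by
    apply slit_zero ht (by linarith only [ht1, q3])
    rcases abs_cases y with h | h <;> rcases abs_cases (y + 1 / 16) with h' | h' <;> linarith only [ht1, q3, q7, h, h', hy1]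
  have s2 : slit t (1 - 3 * t ^ 3 / 4) (y - 1 / 16) = 0 := by
    apply slit_zero ht (by linarith only [ht1, q3])
    rcases abs_cases y with h | h <;> rcases abs_cases (y - 1 / 16) with h' | h' <;> linarith only [ht1, hy1, q3, q7, h, h']
  have pi1 : pit (t ^ 3 - t ^ 4) (-t ^ 4) (y + 1 / 4) ≤ t ^ 3 := by
    apply pit_le p3.le
    have h1 : 0 ≤ t ^ 4 * (y + 1 / 4 + 1) := mul_nonneg p4.le (by linarith only [hy'])
    linarith only [h1]
  have pi2 : pit (t ^ 3 - t ^ 4) (-t ^ 4) (y - 1 / 4) ≤ t ^ 3 := by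
    apply pit_le p3.le
    have h1 : 0 ≤ t ^ 4 * (y - 1 / 4 + 1) := mul_nonneg p4.le (by linarith only [hy'])
    linarith only [h1]
  -- the pits of the right side
  have r1 : pit (t ^ 3 / 2) (-t ^ 3) (y + 5 / 16) = 0 := by
    apply pit_zero' p3 (Or.inr rfl)
    rw [le_abs]
    left
    rcases abs_cases y with h | h <;> linarith only [h, hy']
  have r2 : pit (t ^ 3 / 2) (t ^ 3) (y + 3 / 16) = 0 := by
    apply pit_zero' p3 (Or.inl rfl)
    rw [le_abs]
    rcases abs_cases y with h | h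
    · left; linarith only [h]
    · right; linarith only [hy1, h]
  have r3 : pit (t ^ 3 / 2) (t ^ 3) (y - 3 / 16) = 0 := by
    apply pit_zero' p3 (Or.inl rfl)
    rw [le_abs]
    rcases abs_cases y with h | h
    · left; linarith only [hy1, h]
    · right; linarith only [h]
  have r4 : pit (t ^ 3 / 2) (-t ^ 3) (y - 5 / 16) = 0 := by
    apply pit_zero' p3 (Or.inr rfl)
    rw [le_abs]
    right
    rcases abs_cases y with h | h <;> linarith only [hy']
  unfold lo hi lf rt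
  rw [cx, cy, s1, s2, r1, r2, r3, r4, hhh]
  refine ⟨?_, ?_, ?_, ?_⟩ <;> linarith only [ht1, q3, p2, hy', de1, de2, bu1, bu2, hx', pi1, pi2]

/-- the skin at the end of the slits -/
theorem solid2 {t y : ℝ} (ht : 0 < t) (ht1 : t ≤ 1 / 2 ^ 60)
    (hy1 : 1 / 16 - 1 / 100 ≤ |y|) (hy2 : |y| ≤ 1 / 16 + 1 / 100) :
    lo t (1 / 2 - t ^ 3 / 8) < y ∧ y < hi t (1 / 2 - t ^ 3 / 8) ∧ lf t y < 1 / 2 - t ^ 3 / 8 ∧
      1 / 2 - t ^ 3 / 8 < rt t y := by
  obtain ⟨p3, q3, p4, q4, p7, q7, ht2, p2, q2⟩ := pows ht ht1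
  have hy' := abs_le.mp hy2
  have hhh : hh t = 1 / 2 + t ^ 2 / 2 := by
    unfold hh
    ring
  have cx : chamf t (1 / 2) (1 / 2 - t ^ 3 / 8) ≤ t := by
    apply chamf_le ht.le
    rw [abs_of_nonneg (by linarith only [ht1, q3])]
    linarith only [p4, q4]
  have cx0 := chamf_nonneg t (1 / 2) (1 / 2 - t ^ 3 / 8)
  have cy : chamf t (hh t) y = 0 := chamf_zero (by rw [hhh]; linarith only [ht1, hy2, p2])
  have bu1 := bump_nonneg t (1 / 2 - t ^ 3 / 8 + 1 / 4)
  have bu2 := bump_nonneg t (1 / 2 - t ^ 3 / 8 - 1 / 4)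
  have de1 := dent_le ht (1 / 2 - t ^ 3 / 8 + 1 / 4)
  have de2 := dent_le ht (1 / 2 - t ^ 3 / 8 - 1 / 4)
  have hb1 : |-t ^ 4| ≤ t ^ 3 - t ^ 4 := by
    rw [abs_neg, abs_of_pos p4]
    linarith only [p4, q4]
  have hb2 : |-t ^ 3| ≤ t ^ 3 := by
    rw [abs_neg, abs_of_pos p3]
  have ss : slit t (1 - t ^ 3 / 4) (y + 1 / 16) + slit t (1 - 3 * t ^ 3 / 4) (y - 1 / 16) ≤
      1 - t ^ 3 / 4 := by
    rcases abs_cases y with h | h
    · have s1 : slit t (1 - t ^ 3 / 4) (y + 1 / 16) = 0 := by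
        apply slit_zero ht (by linarith only [ht1, q3])
        rw [abs_of_nonneg (by linarith only [h])]
        linarith only [ht1, q3, q7, h]
      have s2 : slit t (1 - 3 * t ^ 3 / 4) (y - 1 / 16) ≤ 1 - 3 * t ^ 3 / 4 :=
        slit_le ht (by linarith only [ht1, q3])
      linarith only [p4, q4, s1, s2]
    · have s1 : slit t (1 - 3 * t ^ 3 / 4) (y - 1 / 16) = 0 := by
        apply slit_zero ht (by linarith only [ht1, q3])
        rw [abs_of_nonpos (by linarith only [h])]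
        linarith only [ht1, q3, q7, h]
      have s2 : slit t (1 - t ^ 3 / 4) (y + 1 / 16) ≤ 1 - t ^ 3 / 4 :=
        slit_le ht (by linarith only [ht1, q3])
      linarith only [s1, s2]
  have pi1 : pit (t ^ 3 - t ^ 4) (-t ^ 4) (y + 1 / 4) = 0 := by
    apply pit_zero hb1
    rw [abs_of_nonneg (by linarith only [hy'])]
    linarith only [hy']
  have pi2 : pit (t ^ 3 - t ^ 4) (-t ^ 4) (y - 1 / 4) = 0 := by
    apply pit_zero hb1
    rw [abs_of_nonpos (by linarith only [hy'])]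
    linarith only [hy']
  -- the pits of the right side
  have r1 : pit (t ^ 3 / 2) (-t ^ 3) (y + 5 / 16) = 0 := by
    apply pit_zero' p3 (Or.inr rfl)
    rw [le_abs]
    left
    linarith only [hy']
  have r2 : pit (t ^ 3 / 2) (t ^ 3) (y + 3 / 16) = 0 := by
    apply pit_zero' p3 (Or.inl rfl)
    rw [le_abs]
    left
    linarith only [hy']
  have r3 : pit (t ^ 3 / 2) (t ^ 3) (y - 3 / 16) = 0 := by
    apply pit_zero' p3 (Or.inl rfl)
    rw [le_abs]
    right
    linarith only [hy']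
  have r4 : pit (t ^ 3 / 2) (-t ^ 3) (y - 5 / 16) = 0 := by
    apply pit_zero' p3 (Or.inr rfl)
    rw [le_abs]
    right
    linarith only [hy']
  unfold lo hi lf rt
  rw [cy, pi1, pi2, r1, r2, r3, r4, hhh]
  refine ⟨?_, ?_, ?_, ?_⟩ <;> linarith only [ht1, q3, p2, hy', cx, de1, de2, bu1, bu2, p4, q4, ss]

/-- a point is in the interior of a placed tile if its shape coordinates satisfy the strict
inequalities -/
theorem mem_of_strict (hS1 : S1Stmt) {t : ℝ} (ht : 0 < t) (ht1 : t ≤ 1 / 2 ^ 60) (g : Motion)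
    (k : ℕ) (z w : ℂ)
    (hw : w = (-Complex.I) ^ k * ((starRingEnd ℂ) (rot g k) * (z - g.v)))
    (h : lo t w.re < w.im ∧ w.im < hi t w.re ∧ lf t w.im < w.re ∧ w.re < rt t w.im) :
    z ∈ interior (tile t g) := by
  apply mem_interior_tile
  rw [conj_eq g k, ← hw]
  exact (hS1 t ht ht1).1 h

theorem abs_mul_le {s X e m : ℝ} (h1 : |s| ≤ e) (h2 : |X| ≤ m) : |s * X| ≤ e * m := by
  rw [abs_mul]
  exact mul_le_mul h1 h2 (abs_nonneg _) ((abs_nonneg _).trans h1)

theorem num1 {c s X Y : ℝ} (hc : |1 - c| ≤ 1 / 1024) (hs : |s| ≤ 1 / 1024)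
    (hX : |X| ≤ 1 / 16 + 1 / 1024) (hY : |Y - 1 / 4| ≤ 1 / 1024) :
    |c * X + s * Y| ≤ 1 / 8 ∧ 1 / 4 - 1 / 100 ≤ c * Y - s * X ∧ c * Y - s * X ≤ 1 / 4 + 1 / 100 := by
  have hY' := abs_le.mp hY
  have h0 : |Y| ≤ 1 := by rw [abs_le]; constructor <;> linarith only [hY']
  have h1 := abs_le.mp (abs_mul_le hc hX)
  have h2 := abs_le.mp (abs_mul_le hs h0)
  have h3 := abs_le.mp (abs_mul_le hc h0)
  have h4 := abs_le.mp (abs_mul_le hs hX)
  have hX' := abs_le.mp hX
  have e1 : (1 - c) * X = X - c * X := by ring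
  have e2 : (1 - c) * Y = Y - c * Y := by ring
  rw [e1] at h1
  rw [e2] at h3
  refine ⟨?_, ?_, ?_⟩
  · rw [abs_le]
    constructor <;> linarith only [h1, h2, hX']
  · linarith only [hY', h3, h4]
  · linarith

theorem num2 {t c s X Y : ℝ} (ht : 0 < t ^ 3) (ht2 : t ^ 3 ≤ 1 / 1000) (hc : |1 - c| ≤ 1 / 1024)
    (hs : |s| ≤ 1 / 1024) (hX : |X| ≤ 1 / 16 + 1 / 1024) (hX2 : 1 / 16 - 1 / 1024 ≤ |X|)
    (hY : c * Y = 1 / 2 - t ^ 3 / 8 + s * X) :
    |Y - 1 / 2| ≤ 1 / 256 ∧ 1 / 16 - 1 / 100 ≤ |-(c * X + s * Y)| ∧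
      |-(c * X + s * Y)| ≤ 1 / 16 + 1 / 100 := by
  have hc' := abs_le.mp hc
  have h4 := abs_le.mp (abs_mul_le hs hX)
  have hYpos : 0 < Y := by
    by_contra hneg
    have : c * Y ≤ 0 := mul_nonpos_of_nonneg_of_nonpos (by linarith only [hc']) (by linarith only [hneg])
    linarith only [ht2, hY, h4, this]
  have hY1 : Y ≤ 1 := by
    by_contra hgt
    have : (1 - 1 / 1024) * 1 ≤ c * Y :=
      mul_le_mul (by linarith only [hc']) (by linarith only [hgt]) (by norm_num) (by linarith only [hc'])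
    linarith only [ht, hY, h4, this]
  have h0 : |Y| ≤ 1 := by rw [abs_le]; constructor <;> linarith only [hYpos, hY1]
  have h3 := abs_le.mp (abs_mul_le hc h0)
  have e2 : (1 - c) * Y = Y - c * Y := by ring
  rw [e2] at h3
  have h2 := abs_mul_le hs h0
  have h1 := abs_mul_le hc hX
  have e1 : (1 - c) * X = X - c * X := by ring
  rw [e1] at h1
  have h5 : |c * X| ≤ 1 / 16 + 1 / 400 ∧ 1 / 16 - 1 / 400 ≤ |c * X| := by
    have h6 := abs_sub_abs_le_abs_sub X (c * X)
    have h7 := abs_sub_abs_le_abs_sub (c * X) X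
    rw [abs_sub_comm] at h7
    constructor <;> linarith only [hX, h1, h7, hX2, h6]
  refine ⟨?_, ?_, ?_⟩
  · rw [abs_le]
    constructor <;> linarith only [ht2, hY, h4, h3, ht]
  · rw [abs_neg]
    have := abs_sub_abs_le_abs_sub (c * X) (-(s * Y))
    rw [abs_neg, sub_neg_eq_add] at this
    linarith only [h2, h5, this]
  · rw [abs_neg]
    have := abs_add_le (c * X) (s * Y)
    linarith only [h2, h5, this]

/-- the local coordinates -/
theorem loc (g : Motion) (k : ℕ) (x y : ℝ) :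
    (starRingEnd ℂ) (rot g k) * ((⟨x, y⟩ : ℂ) - g.v) =
      ⟨(rot g k).re * (x - g.v.re) + (rot g k).im * (y - g.v.im),
        (rot g k).re * (y - g.v.im) - (rot g k).im * (x - g.v.re)⟩ := by
  apply Complex.ext
  · simp only [Complex.mul_re, Complex.conj_re, Complex.conj_im, Complex.sub_re, Complex.sub_im]
    ring
  · simp only [Complex.mul_im, Complex.conj_re, Complex.conj_im, Complex.sub_re, Complex.sub_im]
    ring

theorem e4 (hS1 : S1Stmt) : E4Stmt := by
  intro t g a k σ ht ht1 hn htop hax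
  obtain ⟨p3, q3, p4, q4, p7, q7, ht2, p2, q2⟩ := pows ht ht1
  obtain ⟨hc1, hc2, hs⟩ := rot_bounds hn
  obtain ⟨hk4, hvx, hvy, -⟩ := hn
  rw [Complex.sub_re] at hvx
  rw [Complex.sub_im] at hvy
  have hvx' := abs_le.mp hvx
  have hvy' := abs_le.mp hvy
  have hc : |1 - (rot g k).re| ≤ 1 / 1024 := by
    rw [abs_le]
    constructor <;> linarith only [hc2, hc1]
  -- the abscissa of the axis
  have hel : (1 / 2 - eL σ = -(1 / 16) ∨ 1 / 2 - eL σ = 1 / 16) := by
    unfold eL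
    rcases σ with _ | _ <;> norm_num
  have htip : tipH t σ ≤ 1 / 2 := by
    unfold tipH
    rcases σ with _ | _
    · simp only [Bool.false_eq_true, if_false]
      linarith only [ht1, q3]
    · simp only [if_true]
      linarith only [ht1, q3]
  have hX1 : |a.re + 1 - eL σ - g.v.re| ≤ 1 / 16 + 1 / 1024 ∧
      1 / 16 - 1 / 1024 ≤ |a.re + 1 - eL σ - g.v.re| := by
    rcases hel with h | h
    · constructor
      · rw [abs_le]
        constructor <;> linarith only [hvx', h]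
      · rw [abs_of_nonpos (by linarith only [hvx', h])]
        linarith only [hvx', h]
    · constructor
      · rw [abs_le]
        constructor <;> linarith only [hvx', h]
      · rw [abs_of_nonneg (by linarith only [hvx', h])]
        linarith only [hvx', h]
  by_contra hk3
  have hk : k = 0 ∨ k = 1 ∨ k = 2 := by omega
  -- the cases `k = 0`, `k = 2`
  have hY : |a.im + 3 / 4 - g.v.im - 1 / 4| ≤ 1 / 1024 := by
    rw [abs_le]
    constructor <;> linarith only [hvy']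
  obtain ⟨b1, b2, b2'⟩ := num1 hc hs hX1.1 hY
  have b3 : |(rot g k).re * (a.im + 3 / 4 - g.v.im) - (rot g k).im * (a.re + 1 - eL σ - g.v.re)| =
      (rot g k).re * (a.im + 3 / 4 - g.v.im) - (rot g k).im * (a.re + 1 - eL σ - g.v.re) :=
    abs_of_nonneg (by linarith only [b2])
  rcases hk with rfl | rfl | rfl
  · refine hax (a.im + 3 / 4) (by linarith only [htip]) (by linarith only [q3, p4, q4]) ?_
    refine mem_of_strict hS1 ht ht1 g 0 _ _ rfl ?_
    rw [loc, pow_zero, one_mul]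
    exact solid1 ht ht1 b1 (by rw [b3]; exact b2) (by rw [b3]; exact b2')
  · -- the slit is covered by the skin
    have hc0 : 0 < (rot g 1).re := by linarith only [hc1]
    obtain ⟨Y, hY1⟩ : ∃ Y, (rot g 1).re * Y =
        1 / 2 - t ^ 3 / 8 + (rot g 1).im * (a.re + 1 - eL σ - g.v.re) :=
      ⟨(1 / 2 - t ^ 3 / 8 + (rot g 1).im * (a.re + 1 - eL σ - g.v.re)) / (rot g 1).re,
        mul_div_cancel₀ _ hc0.ne'⟩
    obtain ⟨hYb, c1, c2⟩ := num2 p3 (by linarith only [ht1, q3]) hc hs hX1.1 hX1.2 hY1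
    have hYb' := abs_le.mp hYb
    have hmem : (⟨a.re + 1 - eL σ, g.v.im + Y⟩ : ℂ) ∈ interior (tile t g) := by
      refine mem_of_strict hS1 ht ht1 g 1 _ ⟨1 / 2 - t ^ 3 / 8,
        -((rot g 1).re * (a.re + 1 - eL σ - g.v.re) + (rot g 1).im * Y)⟩ ?_ ?_
      · rw [loc, pow_one, add_sub_cancel_left]
        apply Complex.ext
        · simp only [Complex.mul_re, Complex.neg_re, Complex.neg_im, Complex.I_re, Complex.I_im]
          linarith only [hY1]
        · simp only [Complex.mul_im, Complex.neg_re, Complex.neg_im, Complex.I_re, Complex.I_im]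
          linarith
      · exact solid2 ht ht1 c1 c2
    refine hax (g.v.im + Y) (by linarith only [hvy', htip, hYb']) ?_ hmem
    exact htop _ (interior_subset hmem)
  · refine hax (a.im + 3 / 4) (by linarith only [htip]) (by linarith only [q3, p4, q4]) ?_
    refine mem_of_strict hS1 ht ht1 g 2 _ _ rfl ?_
    have hI2 : (-Complex.I) ^ 2 = -1 := by
      rw [neg_sq, Complex.I_sq]
    rw [loc, hI2, neg_one_mul]
    have := solid1 (x := -((rot g 2).re * (a.re + 1 - eL σ - g.v.re) +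
        (rot g 2).im * (a.im + 3 / 4 - g.v.im)))
      (y := -((rot g 2).re * (a.im + 3 / 4 - g.v.im) -
        (rot g 2).im * (a.re + 1 - eL σ - g.v.re))) ht ht1 (by rw [abs_neg]; exact b1)
      (by rw [abs_neg, b3]; exact b2) (by rw [abs_neg, b3]; exact b2')
    exact this

end Pool.Agent.Helper2_Pak.H10
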