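import Pool.Agent.Helper10_Pak.E4

/-!
# E8: the levers
-/

set_option autoImplicit false

namespace Pool.Agent.Helper2_Pak.H10

open Pool.Agent.Helper2_Pack (Motion)

theorem Small.le60 {t : ℝ} {G : Lay} (h : Small t G) : t ≤ 1 / 2 ^ 60 := by
  have h1 : (2 : ℝ) ^ 60 ≤ 2 ^ (32 * G.K + 120) :=
    pow_le_pow_right₀ (by norm_num) (by omega)
  have h2 := h.pos
  have h3 : t * 2 ^ 60 ≤ t * 2 ^ (32 * G.K + 120) := mul_le_mul_of_nonneg_left h1 h2.le
  rw [le_div_iff₀ (by positivity)]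
  exact h3.trans h.small

theorem shape_box {t : ℝ} (ht : 0 < t) (ht1 : t ≤ 1 / 2 ^ 60) {w : ℂ} (hw : w ∈ shape t) :
    |w.re| ≤ 501 / 1000 ∧ |w.im| ≤ 501 / 1000 := by
  obtain ⟨p3, q3, p4, q4, p7, q7, ht2, p2, q2⟩ := pows ht ht1
  obtain ⟨h1, h2, h3, h4⟩ := hw
  have hhh : hh t = 1 / 2 + t ^ 2 / 2 := by
    unfold hh
    ring
  unfold lo at h1
  unfold hi at h2
  unfold lf at h3
  unfold rt at h4
  rw [hhh] at h1 h2 h3 h4
  have a1 := dent_nonneg t (w.re + 1 / 4)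
  have a2 := dent_nonneg t (w.re - 1 / 4)
  have a3 := chamf_nonneg t (1 / 2) w.re
  have a4 := bump_le ht (w.re + 1 / 4)
  have a5 := bump_le ht (w.re - 1 / 4)
  have a6 := pit_nonneg (t ^ 3 - t ^ 4) (-t ^ 4) (w.im + 1 / 4)
  have a7 := pit_nonneg (t ^ 3 - t ^ 4) (-t ^ 4) (w.im - 1 / 4)
  have a8 := slit_nonneg t (1 - t ^ 3 / 4) (w.im + 1 / 16)
  have a9 := slit_nonneg t (1 - 3 * t ^ 3 / 4) (w.im - 1 / 16)
  have a10 := chamf_nonneg t (1 / 2 + t ^ 2 / 2) w.im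
  have a11 := pit_nonneg (t ^ 3 / 2) (-t ^ 3) (w.im + 5 / 16)
  have a12 := pit_nonneg (t ^ 3 / 2) (t ^ 3) (w.im + 3 / 16)
  have a13 := pit_nonneg (t ^ 3 / 2) (t ^ 3) (w.im - 3 / 16)
  have a14 := pit_nonneg (t ^ 3 / 2) (-t ^ 3) (w.im - 5 / 16)
  constructor
  · rw [abs_le]
    constructor <;> linarith only [h3, a6, a7, a8, a9, a10, h4, a11, a12, a13, a14]
  · rw [abs_le]
    constructor <;> linarith only [ht1, q2, h1, a1, a2, a3, q3, h2, a4, a5]

/-- the apexes of the bumps belong to the shape -/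
theorem apex_mem {t : ℝ} (ht : 0 < t) (ht1 : t ≤ 1 / 2 ^ 60) {x : ℝ} (hx : x = 1 / 4 ∨ x = -1 / 4) :
    (⟨x, hh t + t ^ 3⟩ : ℂ) ∈ shape t := by
  obtain ⟨p3, q3, p4, q4, p7, q7, ht2, p2, q2⟩ := pows ht ht1
  have hhh : hh t = 1 / 2 + t ^ 2 / 2 := by
    unfold hh
    ring
  have hb1 : |-t ^ 4| ≤ t ^ 3 - t ^ 4 := by
    rw [abs_neg, abs_of_pos p4]
    linarith only [p4, q4]
  have hax : |x| = 1 / 4 := by
    rcases hx with rfl | rfl
    · rw [abs_of_nonneg] <;> norm_num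
    · rw [abs_of_nonpos] <;> norm_num
  have cx : chamf t (1 / 2) x = 0 := chamf_zero (by rw [hax]; linarith only [ht1])
  have bu : t ^ 3 ≤ bump t (x + 1 / 4) + bump t (x - 1 / 4) := by
    have h0 : bump t 0 = t ^ 3 := by
      unfold bump
      rw [abs_zero, sub_zero]
      exact max_eq_right p3.le
    rcases hx with rfl | rfl
    · have := bump_nonneg t (1 / 4 + 1 / 4)
      rw [sub_self, h0]
      linarith only [this]
    · have := bump_nonneg t (-1 / 4 - 1 / 4)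
      have e : (-1 / 4 + 1 / 4 : ℝ) = 0 := by norm_num
      rw [e, h0]
      linarith only [this]
  have de1 := dent_le ht (x + 1 / 4)
  have de2 := dent_le ht (x - 1 / 4)
  have hy0 : 0 < hh t + t ^ 3 := by rw [hhh]; linarith only [p4, q4, p2]
  have cy : chamf t (hh t) (hh t + t ^ 3) ≤ t + t ^ 3 := by
    unfold chamf
    rw [abs_of_pos hy0]
    apply max_le <;> linarith only [q3, p4, q4]
  have s1 : slit t (1 - t ^ 3 / 4) (hh t + t ^ 3 + 1 / 16) = 0 := by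
    apply slit_zero ht (by linarith only [ht1, q3])
    rw [abs_of_nonneg (by linarith only [p4, q4, p2, hhh])]
    linarith only [p4, q4, q7, p2, hhh]
  have s2 : slit t (1 - 3 * t ^ 3 / 4) (hh t + t ^ 3 - 1 / 16) = 0 := by
    apply slit_zero ht (by linarith only [ht1, q3])
    rw [hhh, abs_of_nonneg (by linarith only [p4, q4, p2])]
    linarith only [p4, q4, q7, p2]
  have pi1 : pit (t ^ 3 - t ^ 4) (-t ^ 4) (hh t + t ^ 3 + 1 / 4) = 0 := by
    apply pit_zero hb1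
    rw [hhh, abs_of_nonneg (by linarith only [p4, q4, p2])]
    linarith only [p4, q4, p2]
  have pi2 : pit (t ^ 3 - t ^ 4) (-t ^ 4) (hh t + t ^ 3 - 1 / 4) = 0 := by
    apply pit_zero hb1
    rw [hhh, abs_of_nonneg (by linarith only [p4, q4, p2])]
    linarith only [p4, q4, p2]
  have r1 : pit (t ^ 3 / 2) (-t ^ 3) (hh t + t ^ 3 + 5 / 16) = 0 := by
    apply pit_zero' p3 (Or.inr rfl)
    rw [hhh, abs_of_nonneg (by linarith only [p4, q4, p2])]
    linarith only [p4, q4, p2]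
  have r2 : pit (t ^ 3 / 2) (t ^ 3) (hh t + t ^ 3 + 3 / 16) = 0 := by
    apply pit_zero' p3 (Or.inl rfl)
    rw [hhh, abs_of_nonneg (by linarith only [p4, q4, p2])]
    linarith only [p4, q4, p2]
  have r3 : pit (t ^ 3 / 2) (t ^ 3) (hh t + t ^ 3 - 3 / 16) = 0 := by
    apply pit_zero' p3 (Or.inl rfl)
    rw [hhh, abs_of_nonneg (by linarith only [p4, q4, p2])]
    linarith only [p4, q4, p2]
  have r4 : pit (t ^ 3 / 2) (-t ^ 3) (hh t + t ^ 3 - 5 / 16) = 0 := by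
    apply pit_zero' p3 (Or.inr rfl)
    rw [hhh, abs_of_nonneg (by linarith only [p4, q4, p2])]
    linarith only [p4, q4, p2]
  have hx' := abs_le.mp hax.le
  show lo t x ≤ hh t + t ^ 3 ∧ hh t + t ^ 3 ≤ hi t x ∧ lf t (hh t + t ^ 3) ≤ x ∧
    x ≤ rt t (hh t + t ^ 3)
  unfold lo hi lf rt
  rw [cx, pi1, pi2, r1, r2, r3, r4, s1, s2]
  refine ⟨?_, ?_, ?_, ?_⟩ <;> linarith only [ht1, q3, p2, hhh, de1, de2, bu, cy, hx']

/-- the apexes of the bumps of a tile which is not rotated -/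
theorem apex_tile {t : ℝ} (ht : 0 < t) (ht1 : t ≤ 1 / 2 ^ 60) (g : Motion) (hu : g.u = 1)
    {x : ℝ} (hx : x = 1 / 4 ∨ x = -1 / 4) {z : ℂ} (h1 : z.re = g.v.re + x)
    (h2 : z.im = g.v.im + hh t + t ^ 3) : z ∈ tile t g := by
  refine ⟨⟨x, hh t + t ^ 3⟩, apex_mem ht ht1 hx, ?_⟩
  unfold Motion.app
  rw [hu, one_mul]
  apply Complex.ext
  · rw [Complex.add_re, h1]
    ring
  · rw [Complex.add_im, h2]
    ring

/-- the abscissas of the points of a placed tile -/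
theorem tile_re {t : ℝ} (ht : 0 < t) (ht1 : t ≤ 1 / 2 ^ 60) {g : Motion} {a : ℂ} {k : ℕ}
    (hn : NearK (1 / 1024) a k g) {z : ℂ} (hz : z ∈ tile t g) :
    |z.re - (a.re + 1 / 2)| ≤ 504 / 1000 := by
  obtain ⟨w, hw, rfl⟩ := hz
  obtain ⟨b1, b2⟩ := shape_box ht ht1 hw
  obtain ⟨hc1, hc2, hs⟩ := rot_bounds hn
  obtain ⟨hk4, hvx, -, -⟩ := hn
  rw [Complex.sub_re] at hvx
  have hk : (Complex.I) ^ k * (-Complex.I) ^ k = 1 := by
    rw [← mul_pow]
    simp
  have hu : g.u * w = rot g k * (Complex.I ^ k * w) := by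
    unfold rot
    calc g.u * w = g.u * w * ((Complex.I) ^ k * (-Complex.I) ^ k) := by rw [hk, mul_one]
      _ = _ := by ring
  have hkw : |(Complex.I ^ k * w).re| ≤ 501 / 1000 ∧ |(Complex.I ^ k * w).im| ≤ 501 / 1000 := by
    have h3 : (Complex.I : ℂ) ^ 3 = -Complex.I := by
      rw [pow_succ, Complex.I_sq]
      ring
    interval_cases k
    · rw [pow_zero, one_mul]
      exact ⟨b1, b2⟩
    · rw [pow_one]
      simp only [Complex.mul_re, Complex.mul_im, Complex.I_re, Complex.I_im, zero_mul, one_mul,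
        zero_sub, zero_add, abs_neg]
      exact ⟨b2, b1⟩
    · rw [Complex.I_sq]
      simp only [neg_mul, one_mul, Complex.neg_re, Complex.neg_im, abs_neg]
      exact ⟨b1, b2⟩
    · rw [h3]
      simp only [Complex.mul_re, Complex.mul_im, Complex.I_re, Complex.I_im, zero_mul, one_mul,
        zero_sub, zero_add, abs_neg, neg_mul, Complex.neg_re, Complex.neg_im, neg_neg]
      exact ⟨b2, b1⟩
  obtain ⟨d1, d2⟩ := hkw
  show |(g.u * w + g.v).re - (a.re + 1 / 2)| ≤ 504 / 1000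
  rw [hu, Complex.add_re, Complex.mul_re]
  have hc0 : |(rot g k).re| ≤ 1 := by
    rw [abs_le]
    constructor <;> linarith only [hc1, hc2]
  have e1 := abs_le.mp (abs_mul_le hc0 d1)
  have e2 := abs_le.mp (abs_mul_le hs d2)
  have e3 := abs_le.mp hvx
  rw [abs_le]
  constructor <;> linarith only [e1, e2, e3]

theorem e8 (hE1 : E1Stmt) (hE4 : E4Stmt) (hE5 : E5Stmt) (hF6 : F6Stmt) (hG4 : G4Stmt)
    (hG6 : G6Stmt) : E8Stmt := by
  intro t G g L kL hG hsm hA c hc hL hY1 hY2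
  have ht := hsm.pos
  have ht1 := Small.le60 hsm
  -- the kinds of the two columns
  obtain ⟨σ, hσ⟩ : ∃ σ, G.kd c = .pL σ := by
    cases h : G.kd c <;> rw [h] at hL <;> first | exact ⟨_, rfl⟩ | (simp [Kind.isL] at hL)
  obtain ⟨hc1, hR⟩ := hG.portL c σ hc hσ
  have hsig : (G.kd c).sig = σ := by
    rw [hσ]
    rfl
  have hN : G.N - 1 = 2 * G.n := by
    unfold Lay.N
    omega
  have hspc : ∀ c, G.spc c (G.N - 1) = false := by
    intro c
    unfold Lay.spc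
    rw [if_pos (by unfold Lay.N; omega), hN]
    simp
  have hpres : ∀ c, c < G.M → G.pres c (G.N - 1) = true := by
    intro c hc
    unfold Lay.pres Lay.top Lay.N
    simp only [Bool.and_eq_true, decide_eq_true_eq]
    omega
  have hori : ∀ c, (G.kd c).isW = false → G.ori c (G.N - 1) = 0 := by
    intro c hw
    unfold Lay.ori
    rw [hw, hspc]
    rfl
  have hori1 := hori c (by rw [hσ]; rfl)
  have hori2 := hori (c + 1) (by rw [hR]; rfl)
  have hE1a := hE1 t G g G.ori L kL hG hsm hA c (G.N - 1) (hpres c hc) (by rw [hN]; omega)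
  have hE1b := hE1 t G g G.ori L kL hG hsm hA (c + 1) (G.N - 1) (hpres (c + 1) hc1)
    (by rw [hN]; omega)
  rw [hori1, pow_zero] at hE1a
  rw [hori2, pow_zero] at hE1b
  -- the lever
  have hnear := hA.nearL c hc hL
  have hsub := hA.subL c hc hL
  have hax : ∀ y : ℝ, (⟨c + eL (G.kd c).sig, G.N⟩ : ℂ).im + tipH t σ ≤ y →
      y ≤ (⟨c + eL (G.kd c).sig, G.N⟩ : ℂ).im + 1 + t / 4 →
      (⟨(⟨c + eL (G.kd c).sig, G.N⟩ : ℂ).re + 1 - eL σ, y⟩ : ℂ) ∉ interior (tile t (L c)) := by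
    intro y h1 h2 h3
    have h4 := (hG4 t G c hG hsm hc).2.2 hL y (by rw [hsig]; exact h1) h2
    apply h4
    have h5 : (⟨(⟨c + eL (G.kd c).sig, G.N⟩ : ℂ).re + 1 - eL σ, y⟩ : ℂ) = ⟨(c : ℝ) + 1, y⟩ := by
      rw [hsig]
      apply Complex.ext
      · show (c : ℝ) + eL σ + 1 - eL σ = c + 1
        ring
      · rfl
    rw [h5] at h3
    exact interior_mono hsub h3
  have htop : ∀ z ∈ tile t (L c), z.im ≤ (⟨c + eL (G.kd c).sig, G.N⟩ : ℂ).im + 1 + t / 4 := by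
    intro z hz
    have h1 := abs_le.mp (tile_re ht ht1 hnear hz)
    have h2 : (⟨c + eL (G.kd c).sig, G.N⟩ : ℂ).re = c + eL (G.kd c).sig := rfl
    rw [h2] at h1
    have h3 : eL (G.kd c).sig = 18 / 32 ∨ eL (G.kd c).sig = 14 / 32 := by
      unfold eL
      split_ifs
      · left; rfl
      · right; rfl
    have h4 : (c : ℝ) + 1 / 4 ≤ z.re := by
      rcases h3 with h | h <;> rw [h] at h1 <;> linarith only [h1]
    have h5 : z.re ≤ (c : ℝ) + 7 / 4 := by
      rcases h3 with h | h <;> rw [h] at h1 <;> linarith only [h1]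
    exact (hG6 t G c hG hsm hc hL z (hsub hz) h4 h5).1
  have hk3 : kL c = 3 := hE4 t (L c) _ (kL c) σ ht ht1 hnear htop hax
  rw [hk3] at hnear
  have key := hE5 t (YD t G g c) (YD t G g (c + 1)) (L c) _ σ ht ht1 hY1 hY2 hnear hax ?_ ?_
  · rw [hsig]
    exact key
  · refine hF6 t (g c (G.N - 1)) (L c) ht ht1 (hA.disjL c (G.N - 1) c (hpres c hc) hc hL) _ ?_
    refine apex_tile ht ht1 _ hE1a.1 (Or.inl rfl) ?_ ?_
    · rw [hE1a.2, hsig]
      show (c : ℝ) + eL σ + 1 - eL σ - 1 / 4 = c + 1 / 2 + 1 / 4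
      ring
    · show (G.N : ℝ) + t ^ 3 + YD t G g c = _
      unfold YD
      ring
  · refine hF6 t (g (c + 1) (G.N - 1)) (L c) ht ht1
      (hA.disjL (c + 1) (G.N - 1) c (hpres (c + 1) hc1) hc hL) _ ?_
    refine apex_tile ht ht1 _ hE1b.1 (Or.inr rfl) ?_ ?_
    · rw [hE1b.2, hsig]
      push_cast
      show (c : ℝ) + eL σ + 1 - eL σ + 1 / 4 = c + 1 + 1 / 2 + -1 / 4
      ring
    · show (G.N : ℝ) + t ^ 3 + YD t G g (c + 1) = _
      unfold YD
      ring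

end Pool.Agent.Helper2_Pak.H10
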