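import Pool.Agent.Helper2_Pak.Stmts

/-!
# Small lemmas for the modules E4 and E8
-/

set_option autoImplicit false

namespace Pool.Agent.Helper2_Pak.H10

open Pool.Agent.Helper2_Pack (Motion)

theorem conj_mul (g : Motion) : (starRingEnd ℂ) g.u * g.u = 1 := by
  rw [mul_comm, Complex.mul_conj, Complex.normSq_eq_norm_sq, g.unit]
  simp

theorem mul_conj' (g : Motion) : g.u * (starRingEnd ℂ) g.u = 1 := by
  rw [mul_comm, conj_mul]

/-- a motion as a homeomorphism -/
def homeo (g : Motion) : ℂ ≃ₜ ℂ where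
  toFun := g.app
  invFun := fun z => (starRingEnd ℂ) g.u * (z - g.v)
  left_inv := fun z => by
    show (starRingEnd ℂ) g.u * (g.u * z + g.v - g.v) = z
    rw [add_sub_cancel_right, ← mul_assoc, conj_mul, one_mul]
  right_inv := fun z => by
    show g.u * ((starRingEnd ℂ) g.u * (z - g.v)) + g.v = z
    rw [← mul_assoc, mul_conj', one_mul, sub_add_cancel]
  continuous_toFun := by
    show Continuous fun z : ℂ => g.u * z + g.v
    fun_prop
  continuous_invFun := by
    show Continuous fun z : ℂ => (starRingEnd ℂ) g.u * (z - g.v)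
    fun_prop

theorem mem_image (g : Motion) (S : Set ℂ) (z : ℂ) :
    z ∈ g.app '' S ↔ (starRingEnd ℂ) g.u * (z - g.v) ∈ S := by
  constructor
  · rintro ⟨w, hw, rfl⟩
    have : (starRingEnd ℂ) g.u * (g.u * w + g.v - g.v) = w := (homeo g).left_inv w
    show (starRingEnd ℂ) g.u * (g.u * w + g.v - g.v) ∈ S
    rw [this]
    exact hw
  · intro h
    exact ⟨_, h, (homeo g).right_inv z⟩

theorem mem_interior_tile {t : ℝ} (g : Motion) {z : ℂ}
    (h : (starRingEnd ℂ) g.u * (z - g.v) ∈ interior (shape t)) : z ∈ interior (tile t g) := by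
  have h1 : (homeo g) '' interior (shape t) = interior ((homeo g) '' shape t) :=
    (homeo g).image_interior _
  have h2 : (homeo g) '' shape t = tile t g := rfl
  rw [h2] at h1
  rw [← h1]
  exact ⟨_, h, (homeo g).right_inv z⟩

/-- the coordinates with respect to the orientation `k` -/
theorem conj_eq (g : Motion) (k : ℕ) (z : ℂ) :
    (starRingEnd ℂ) g.u * z = (-Complex.I) ^ k * ((starRingEnd ℂ) (rot g k) * z) := by
  have h1 : (-Complex.I) ^ k * (Complex.I) ^ k = 1 := by
    rw [← mul_pow]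
    simp
  unfold rot
  rw [map_mul, map_pow, map_neg, Complex.conj_I, neg_neg]
  calc (starRingEnd ℂ) g.u * z = ((-Complex.I) ^ k * Complex.I ^ k) * ((starRingEnd ℂ) g.u * z) := by
        rw [h1, one_mul]
    _ = _ := by ring

theorem norm_rot (g : Motion) (k : ℕ) : ‖rot g k‖ = 1 := by
  unfold rot
  rw [norm_mul, norm_pow, norm_neg, Complex.norm_I, one_pow, g.unit, mul_one]

theorem rot_near {e : ℝ} {a : ℂ} {k : ℕ} {g : Motion} (h : NearK e a k g) :
    ‖rot g k - 1‖ ≤ e := by
  have h1 : (Complex.I) ^ k * (-Complex.I) ^ k = 1 := by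
    rw [← mul_pow]
    simp
  have h2 : rot g k - 1 = (g.u - Complex.I ^ k) * (-Complex.I) ^ k := by
    unfold rot
    rw [sub_mul, h1]
  rw [h2, norm_mul, norm_pow, norm_neg, Complex.norm_I, one_pow, mul_one]
  exact h.2.2.2

/-- bounds of the coordinates of the small rotation -/
theorem rot_bounds {e : ℝ} {a : ℂ} {k : ℕ} {g : Motion} (h : NearK e a k g) :
    1 - e ≤ (rot g k).re ∧ (rot g k).re ≤ 1 ∧ |(rot g k).im| ≤ e := by
  have h1 := rot_near h
  have h2 := (Complex.abs_re_le_norm (rot g k - 1)).trans h1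
  have h3 := (Complex.abs_im_le_norm (rot g k - 1)).trans h1
  have h4 := (Complex.abs_re_le_norm (rot g k)).trans (norm_rot g k).le
  simp only [Complex.sub_re, Complex.one_re, Complex.sub_im, Complex.one_im, sub_zero] at h2 h3
  exact ⟨by linarith [(abs_le.mp h2).1], (abs_le.mp h4).2, h3⟩

theorem rot_sq (g : Motion) (k : ℕ) : (rot g k).re ^ 2 + (rot g k).im ^ 2 = 1 := by
  have h1 := Complex.normSq_eq_norm_sq (rot g k)
  rw [norm_rot, Complex.normSq_apply] at h1
  nlinarith

/-! ### the profile functions -/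

theorem dent_nonneg (t e : ℝ) : 0 ≤ dent t e := le_max_left _ _

theorem dent_zero {t e : ℝ} (ht : 0 < t) (h : 1 / 64 ≤ |e|) : dent t e = 0 := by
  unfold dent
  apply max_eq_left
  have : 0 < t ^ 3 := by positivity
  nlinarith

theorem bump_nonneg (t e : ℝ) : 0 ≤ bump t e := le_max_left _ _

theorem bump_le {t : ℝ} (ht : 0 < t) (e : ℝ) : bump t e ≤ t ^ 3 := by
  unfold bump
  apply max_le
  · positivity
  · linarith [abs_nonneg e]

theorem pit_nonneg (a b e : ℝ) : 0 ≤ pit a b e := le_max_left _ _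

theorem pit_zero {a b e : ℝ} (h1 : |b| ≤ a) (h : 1 / 64 ≤ |e|) : pit a b e = 0 := by
  have h2 := abs_le.mp h1
  unfold pit
  apply max_eq_left
  rcases le_abs.mp h with h | h
  · refine (min_le_right _ _).trans ((min_le_left _ _).trans ?_)
    have h3 : 0 ≤ a + b / 128 := by linarith [h2.1]
    have h4 : 2 - 128 * e ≤ 0 := by linarith
    nlinarith
  · refine (min_le_right _ _).trans ((min_le_right _ _).trans ?_)
    have h3 : 0 ≤ a - b / 128 := by linarith [h2.2]
    have h4 : 2 + 128 * e ≤ 0 := by linarith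
    nlinarith

theorem chamf_nonneg (t w e : ℝ) : 0 ≤ chamf t w e := le_max_left _ _

theorem chamf_zero {t w e : ℝ} (h : |e| ≤ w - t) : chamf t w e = 0 :=
  max_eq_left (by linarith)

theorem chamf_le {t w e : ℝ} (ht : 0 ≤ t) (h : |e| ≤ w) : chamf t w e ≤ t :=
  max_le ht (by linarith)

theorem slit_nonneg (t d e : ℝ) : 0 ≤ slit t d e := le_max_left _ _

theorem slit_zero {t d e : ℝ} (ht : 0 < t) (hd : 0 ≤ d) (h : 2 * t ^ 7 ≤ |e|) :
    slit t d e = 0 := by
  unfold slit
  apply max_eq_left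
  have h1 : 0 < 2 * t ^ 7 := by positivity
  have h2 : 1 ≤ |e| / (2 * t ^ 7) := by
    rw [le_div_iff₀ h1]
    linarith
  nlinarith

theorem slit_le {t d e : ℝ} (ht : 0 < t) (hd : 0 ≤ d) : slit t d e ≤ d := by
  unfold slit
  apply max_le hd
  have h1 : 0 ≤ |e| / (2 * t ^ 7) := by positivity
  nlinarith

end Pool.Agent.Helper2_Pak.H10
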